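import Pool.Agent.Lib.MP_49fa77_co.H30.Iface

/-!
# Row GO: outer short edges
-/

set_option autoImplicit false

namespace FT58.AS.H38

open Real FT58

/-- Row GO. -/
theorem go_st : GoS := by
  intro D a hD hD1 h0 h1
  rw [GG_eq]
  have h2 := Delta_lower h0.le h1.le
  have h3 := Ar_upper h0.le h1.le
  have h4 : a ^ 3 / 12 ≤ Pa a := by
    unfold Pa
    have p5 : 0 ≤ a ^ 5 := by positivity
    have p7 : 0 ≤ a ^ 7 := by positivity
    have p9 : 0 ≤ a ^ 9 := by positivity
    linarith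
  have h5 : Ar a ≤ 2 * a := by
    have p3 : 0 ≤ a ^ 3 := by positivity
    have p5 : 0 ≤ a ^ 5 := by positivity
    linarith
  have hs := sqrt3_gt
  have h6 : (1 - D) * Ar a ≤ (1 - D) * (2 * a) :=
    mul_le_mul_of_nonneg_left h5 (by linarith)
  have h7 : (1 - D) * 1.299 ≤ 3 * √3 / 4 * (1 - D) := by
    have : (1 - D) * 1.299 ≤ (1 - D) * (3 * √3 / 4) :=
      mul_le_mul_of_nonneg_left (by linarith) (by linarith)
    linarith
  have h8 : 0 ≤ a ^ 3 - (2.43 * a - 1.458) := by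
    have : a ^ 3 - (2.43 * a - 1.458) = (a - 0.9) ^ 2 * (a + 1.8) := by ring
    rw [this]; positivity
  have h9 : 0 ≤ (1 - D) * (a ^ 3 / 12 - 0.2 * a + 0.1299) :=
    mul_nonneg (by linarith) (by linarith)
  have h10 : 0 ≤ (1 - 10 * (1 - D)) * a ^ 3 :=
    mul_nonneg (by linarith) (by positivity)
  nlinarith

end FT58.AS.H38
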